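import Pool.Agent.H34.N6V.Targets
import Pool.Agent.H13.N6E.Base

set_option autoImplicit false

open Polynomial NumberField IsDedekindDomain Pool.Agent.H32.QC Pool.Agent.H34.N6
  Pool.Agent.H13.DEV Pool.Agent.H34.N6V

namespace Pool.Agent.H17.N6V

theorem pf_DVF (hEXA : T_EXA) (hADJ : T_ADJ) (hPAF : T_PAF) (hSPF : T_SPF) (hTHF : T_THF)
    (hALF : T_ALF) (hODF : T_ODF) : T_DVF := by
  intro k ι _ _ _ _ P E D R S N G ε hyp hNVF
  choose L i1 i2 i3 e hGen hfr using fun j => hEXA k (P j) (hyp.fam.mon j) (hyp.fam.irr j)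
  obtain ⟨j₀⟩ := (inferInstance : Nonempty ι)
  obtain ⟨S', G', ε', hyp', hsg⟩ := hADJ k ι L P E D e R S N G ε hyp hGen hNVF j₀
  have hj0 := hPAF k ι L P E D e R S' N G' ε' hyp' hGen j₀ hsg
  have hsg' : ∀ j, sg D (e j) S' G' = 1 := by
    intro j
    by_cases h : j = j₀
    · subst h
      exact hj0
    · exact hsg j h
  have hP0 : ∏ j, P j ≠ 0 := Finset.prod_ne_zero_iff.2 fun j _ => (hyp.fam.mon j).ne_zero
  obtain ⟨p, hp⟩ := hSPF k (∏ j, P j) D S' hP0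
  obtain ⟨G0, hout⟩ := hTHF k ι L P E D e S' N p G' ε' hyp'.fam hGen
    (fun j => Pool.Agent.H13.N6E.gen_nsq (hGen j) (hyp'.nsq j)) hyp'.good hyp'.real hyp'.le
    hp.prime hp.off (by
      intro v hv
      obtain ⟨h1, h2, h3, h4, -⟩ := hyp'.loc v hv
      refine ⟨h1, h2, h3, fun j => ?_⟩
      apply Pool.Agent.H13.N6E.gen_ne (hGen j)
      exact h4.of_isCoprime_of_dvd_right (Finset.dvd_prod_of_mem P (Finset.mem_univ j))) hsg'
  obtain ⟨K, k1, k2, k3, θ, hodd, hadj, hθ⟩ := hODF k G0 (hout j₀).mon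
    (by rw [(hout j₀).deg]; exact hyp'.odd)
  obtain ⟨h5, h6⟩ := hALF k ι L P E D e R S' S' N p G' G' ε' ε' G0 hyp' hGen subset_rfl hp
    (fun v _ => ⟨rfl, le_rfl⟩) hout K θ hadj hθ
  exact ⟨K, k1, k2, k3, θ, hodd, hadj, h5, fun w => h6 w fun h => h⟩

end Pool.Agent.H17.N6V
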