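import Pool.Agent.H34.N6V.TargetsN

set_option autoImplicit false

open Polynomial NumberField IsDedekindDomain Pool.Agent.H32.QC Pool.Agent.H34.N6
  Pool.Agent.H13.DEV Pool.Agent.H34.N6V

namespace Pool.Agent.H17.N6V

section

variable {k : Type} [Field k]

theorem res_deg {f : k[X]} (hf : f.Monic) (g : k[X]) {N : ℕ} (hN : g.natDegree ≤ N) :
    f.resultant g f.natDegree N = f.resultant g := by
  obtain ⟨c, rfl⟩ := Nat.exists_eq_add_of_le hN
  rw [resultant_add_right_deg _ _ _ _ _ le_rfl]
  have h : f.coeff f.natDegree = 1 := hf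
  rw [h, one_pow, one_mul]

theorem res_sq {f g s : k[X]} (hf : f.Monic) (hs : s ≠ 0) (h : f ∣ g - s ^ 2) :
    IsSquare (f.resultant g) := by
  obtain ⟨c, hc⟩ := h
  have hg : g = s ^ 2 + f * c := by linear_combination hc
  obtain ⟨N, h1, h2, h3⟩ : ∃ N, g.natDegree ≤ N ∧ (s ^ 2).natDegree ≤ N ∧
      c.natDegree + f.natDegree ≤ N :=
    ⟨g.natDegree + (s ^ 2).natDegree + (c.natDegree + f.natDegree), by omega, by omega, by omega⟩
  rw [← res_deg hf g h1]
  have e : f.resultant g f.natDegree N = f.resultant (s ^ 2) f.natDegree N := by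
    rw [hg]
    exact resultant_add_mul_right _ _ _ _ _ h3 le_rfl
  rw [e, res_deg hf _ h2]
  have h4 : f.resultant (s ^ 2) = (f.resultant s) ^ 2 :=
    resultant_pow_right f s f.natDegree 2 le_rfl (pow_ne_zero _ (leadingCoeff_ne_zero.2 hs))
  rw [h4]
  exact ⟨f.resultant s, pow_two _⟩

end

theorem pf_FAM : Pool.Agent.H34.N6V.T_FAM := by
  classical
  intro k _ _ P D hP h7 hsep hcop hirr hNVP
  have hP0 : P ≠ 0 := hP.ne_zero
  obtain ⟨T, hT⟩ : ∃ T : Finset k[X],
      T = (UniqueFactorizationMonoid.normalizedFactors P).toFinset := ⟨_, rfl⟩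
  have hnd : (UniqueFactorizationMonoid.normalizedFactors P).Nodup :=
    (UniqueFactorizationMonoid.squarefree_iff_nodup_normalizedFactors hP0).1 hsep.squarefree
  have hprod : ∏ q ∈ T, q = P := by
    rw [hT]
    have h1 := UniqueFactorizationMonoid.prod_normalizedFactors_eq hP0
    rw [hP.normalize_eq_self] at h1
    rw [Finset.prod, Multiset.toFinset_val, Multiset.dedup_eq_self.2 hnd, Multiset.map_id']
    exact h1
  have hmem : ∀ q ∈ T, q.Monic ∧ Irreducible q ∧ q ∣ P := by
    intro q hq
    rw [hT, Multiset.mem_toFinset] at hq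
    have hi := UniqueFactorizationMonoid.irreducible_of_normalized_factor q hq
    refine ⟨?_, hi, UniqueFactorizationMonoid.dvd_of_mem_normalizedFactors hq⟩
    have h1 := UniqueFactorizationMonoid.normalize_normalized_factor q hq
    rw [← h1]
    exact monic_normalize hi.ne_zero
  have hcopr : ∀ i j : T, i ≠ j → IsCoprime (i : k[X]) (j : k[X]) := by
    intro i j hij
    obtain ⟨mi, ii, -⟩ := hmem _ i.2
    obtain ⟨mj, ij, -⟩ := hmem _ j.2
    rw [ii.coprime_iff_not_dvd]
    intro hd
    apply hij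
    apply Subtype.ext
    exact eq_of_monic_of_associated mi mj (ii.associated_of_dvd ij hd)
  have hcopR : ∀ j : T, IsCoprime (j : k[X]) (∏ i ∈ Finset.univ.erase j, (i : k[X])) := by
    intro j
    apply IsCoprime.prod_right
    intro i hi
    exact hcopr j i (Finset.ne_of_mem_erase hi).symm
  choose a b hab using hcopR
  have hprod' : ∏ j : T, (j : k[X]) = P := by
    rw [Finset.prod_coe_sort T (fun q => q)]
    exact hprod
  have hdeg : ∀ s : Finset T, s.Nonempty → ∏ j ∈ s, (j : k[X]) ≠ 1 := by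
    intro s hs h1
    obtain ⟨j, hj⟩ := hs
    have h2 : (j : k[X]) ∣ 1 := by
      rw [← h1]
      exact Finset.dvd_prod_of_mem (fun i : T => (i : k[X])) hj
    exact (hmem _ j.2).2.1.not_isUnit (isUnit_of_dvd_one h2)
  have hresprod : ∀ s : Finset T, (∏ j ∈ s, (j : k[X])).resultant D =
      ∏ j ∈ s, (j : k[X]).resultant D := by
    intro s
    refine resultant_prod_left s (fun j : T => (j : k[X])) D D.natDegree ?_ le_rfl
    rw [Finset.prod_ne_zero_iff]
    intro j _
    rw [(hmem _ j.2).1.leadingCoeff]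
    exact one_ne_zero
  have hNVF : NVF (fun j : T => (j : k[X])) D := by
    intro s hs hsu
    have hsc : sᶜ.Nonempty := by
      rw [Finset.nonempty_iff_ne_empty]
      intro h
      exact hsu ((Finset.compl_eq_empty_iff s).1 h)
    have h1 := hNVP (∏ j ∈ s, (j : k[X])) (∏ j ∈ sᶜ, (j : k[X]))
      (monic_prod_of_monic _ _ fun j _ => (hmem _ j.2).1)
      (monic_prod_of_monic _ _ fun j _ => (hmem _ j.2).1) (hdeg s hs) (hdeg _ hsc)
      (by rw [Finset.prod_mul_prod_compl, hprod'])
    rw [hresprod] at h1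
    exact h1
  have hndv : ∀ j : T, ¬ (j : k[X]) ∣ D := by
    intro j hj
    have h1 := hcop.isUnit_of_dvd' (hmem _ j.2).2.2 hj
    exact (hmem _ j.2).2.1.not_isUnit h1
  have hne : Nonempty T := by
    by_contra hcon
    rw [not_nonempty_iff] at hcon
    rw [Finset.univ_eq_empty, Finset.prod_empty] at hprod'
    rw [← hprod', natDegree_one] at h7
    omega
  refine ⟨T, inferInstance, hne, fun j => (j : k[X]),
    fun j => b j * ∏ i ∈ Finset.univ.erase j, (i : k[X]), ⟨fun j => (hmem _ j.2).1,
      fun j => (hmem _ j.2).2.1, ?_, ?_⟩, hprod', ?_, hndv, hNVF⟩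
  · intro j
    refine ⟨-a j, ?_⟩
    linear_combination hab j
  · intro i j hij
    apply Dvd.dvd.mul_left
    exact Finset.dvd_prod_of_mem (fun i : T => (i : k[X]))
      (Finset.mem_erase.2 ⟨hij, Finset.mem_univ _⟩)
  · intro j hj
    obtain ⟨s, hs⟩ := hj
    have hs0 : s ≠ 0 := by
      rintro rfl
      apply hndv j
      have h := hs
      rw [zero_pow two_ne_zero, sub_zero] at h
      exact h
    have h1 := res_sq (hmem _ j.2).1 hs0 hs
    have h2 : ({j} : Finset T) ≠ Finset.univ := by
      intro h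
      apply hirr
      rw [← hprod', ← h, Finset.prod_singleton]
      exact (hmem _ j.2).2.1
    apply hNVF {j} (Finset.singleton_nonempty j) h2
    rw [Finset.prod_singleton]
    exact h1

end Pool.Agent.H17.N6V
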