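import Pool.Agent.H34.N6V.Targets
import Pool.Agent.H34.N6.LibC

set_option autoImplicit false

open Polynomial NumberField IsDedekindDomain Pool.Agent.H32.QC Pool.Agent.H34.N6
  Pool.Agent.H13.DEV Pool.Agent.H34.N6V

namespace Pool.Agent.H17.N6V

theorem norm_one_fin {K : Type} [Field K] [NumberField K] (x : K) (hx : x ≠ 0) :
    {v : FPl K | ¬ ‖ic v x‖ = 1}.Finite := by
  refine ((int_fin x).union (int_fin x⁻¹)).subset ?_
  intro v hv
  by_contra hcon
  rw [Set.mem_union, not_or] at hcon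
  obtain ⟨h1, h2⟩ := hcon
  have h1' : ‖ic v x‖ ≤ 1 := by
    by_contra h; exact h1 h
  have h2' : ‖ic v x⁻¹‖ ≤ 1 := by
    by_contra h; exact h2 h
  apply hv
  have h3 : ‖ic v x‖ * ‖ic v x⁻¹‖ = 1 := by
    rw [← norm_mul, ← map_mul, mul_inv_cancel₀ hx, map_one, norm_one]
  have h4 := norm_nonneg (ic v x)
  have h5 := norm_nonneg (ic v x⁻¹)
  have h6 : (1 : ℝ) ≤ ‖ic v x‖ := by nlinarith
  exact le_antisymm h1' h6

open Classical in
theorem sign_mul (A B : Prop) : (if A then (1 : ℤ) else -1) * (if B then 1 else -1) =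
    if (A ↔ B) then 1 else -1 := by
  by_cases hA : A <;> by_cases hB : B <;> simp [hA, hB]

theorem pf_PSI (hGF : T_GF) (hNRM : T_NRM) (hCHI : T_CHI) (hINERT : T_INERT) : T_PSI := by
  classical
  intro k ι _ _ _ L _ _ _ P E D e hF hG hD s hs
  have hr0 : ∀ j, (P j).resultant D ≠ 0 := by
    intro j
    apply resultant_ne_zero
    exact (hF.irr j).coprime_iff_not_dvd.2 (hD j)
  have hinf := hINERT k _ hs
  have hfin : ({v : FPl k | ¬ GoodF P E D v} ∪
      ⋃ j, {v : FPl k | ¬ ‖ic v ((P j).resultant D)‖ = 1}).Finite :=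
    (hGF k ι P E D hF hD).union (Set.finite_iUnion fun j => norm_one_fin _ (hr0 j))
  refine (hinf.diff hfin).mono ?_
  intro v hv
  obtain ⟨hv1, hv2⟩ := hv
  rw [Set.mem_union, not_or] at hv2
  obtain ⟨hv3, hv4⟩ := hv2
  have hgood : GoodF P E D v := by
    by_contra h; exact hv3 h
  have hone : ∀ j, ‖ic v ((P j).resultant D)‖ = 1 := by
    intro j
    by_contra h
    exact hv4 (Set.mem_iUnion.2 ⟨j, h⟩)
  refine ⟨hgood, ?_⟩
  have hprod : ∀ t : Finset ι, ‖ic v (∏ j ∈ t, (P j).resultant D)‖ = 1 := by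
    intro t
    rw [map_prod, norm_prod]
    exact Finset.prod_eq_one fun j _ => hone j
  have hmain : ∀ t : Finset ι, ∏ j ∈ t, psi D (e j) v =
      if IsSquare (ic v (∏ j ∈ t, (P j).resultant D)) then 1 else -1 := by
    intro t
    induction t using Finset.induction_on with
    | empty =>
      rw [Finset.prod_empty, Finset.prod_empty, if_pos]
      rw [map_one]
      exact ⟨1, by rw [mul_one]⟩
    | insert a t ha ih =>
      rw [Finset.prod_insert ha, Finset.prod_insert ha, ih,
        hNRM k (L a) (P a) D (e a) v (hF.mon a) (hG a) (hgood.each a), sign_mul]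
      have h := hCHI k v hgood.all.two _ _ (hone a) (hprod t)
      by_cases hsq : IsSquare (ic v ((P a).resultant D * ∏ j ∈ t, (P j).resultant D))
      · rw [if_pos (h.1 hsq), if_pos hsq]
      · rw [if_neg (fun h' => hsq (h.2 h')), if_neg hsq]
  rw [hmain s, if_neg hv1]

end Pool.Agent.H17.N6V
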